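import Pool.Agent.Y140.AW.Stm2
import Pool.Agent.Y686.AW.Indep

/-!
# Algebraic independence of the first coordinates, `s` in the base field (project AW2, INDEP2)

(helper686, for helper140.)
-/

set_option autoImplicit false

namespace Pool.Agent.Y686.AW2

open Polynomial Pool.Agent.Y140.AW

theorem t_indep2 : St_indep2 := by
  classical
  intro p _ K K₀ N _ _ _ _ _ _ _ _ _ Θ D₀ D₁ D d B m hDD hD₁ hD ν s hb x θ hx hpt
  have hcN : CharP N p := charP_of_injective_algebraMap (algebraMap K N).injective p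
  let F₁ : IntermediateField K₀ N := IntermediateField.adjoin K₀ (Set.range x)
  have hsc : IsScalarTower K F₁ N := IsScalarTower.of_algebraMap_eq fun z => rfl
  have hxF : ∀ j, x j ∈ F₁ := fun j => IntermediateField.subset_adjoin K₀ _ ⟨j, rfl⟩
  have hsF : algebraMap K₀ N s ∈ F₁ := F₁.algebraMap_mem s
  let L : IntermediateField F₁ N := algebraicClosure F₁ N
  have hL : ∀ z : N, z ∈ L ↔ IsAlgebraic F₁ z := fun z => mem_algebraicClosure_iff
  have hFL : ∀ z ∈ F₁, z ∈ L := fun z hz =>
    (hL z).2 (isAlgebraic_algebraMap (⟨z, hz⟩ : F₁))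
  have hxL : ∀ j, x j ∈ L := fun j => hFL _ (hxF j)
  have hsL : algebraMap K₀ N s ∈ L := hFL _ hsF
  -- polynomials in `x j`
  have hpolyL : ∀ (P : K[X]) (j : Fin m), aeval (x j) P ∈ L := by
    intro P j
    refine hFL _ ?_
    have h1 : aeval (x j) P = algebraMap F₁ N (aeval (⟨x j, hxF j⟩ : F₁) P) := by
      rw [← aeval_algebraMap_apply]
      rfl
    rw [h1]
    exact (aeval (⟨x j, hxF j⟩ : F₁) P).2
  have hθL : ∀ j, θ j ∈ L := by
    intro j
    rw [hL]
    have h1 := (hpt j).1
    have hint : IsIntegral F₁ (θ j) := by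
      refine ⟨Θ.map (aeval (⟨x j, hxF j⟩ : F₁) : K[X] →ₐ[K] F₁).toRingHom,
        hDD.monic.map _, ?_⟩
      rw [Polynomial.eval₂_eq_eval_map, Polynomial.map_map]
      have h2 : (algebraMap F₁ N).comp (aeval (⟨x j, hxF j⟩ : F₁) : K[X] →ₐ[K] F₁).toRingHom =
          (Polynomial.aeval (x j) : K[X] →ₐ[K] N).toRingHom := by
        refine RingHom.ext fun P => ?_
        show algebraMap F₁ N (aeval (⟨x j, hxF j⟩ : F₁) P) = aeval (x j) P
        rw [← aeval_algebraMap_apply]
        rfl
      rw [h2]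
      exact h1
    exact hint.isAlgebraic
  -- the coefficients
  have hνL : ∀ a, ν a ∈ L := by
    refine Pool.Agent.Y686.AW.solve_mem L (fun j => x j ^ p) ?_ (fun j => pow_mem (hxL j) p) ν ?_
    · intro i j hij
      exact hx (frobenius_inj N p hij)
    · intro j
      obtain ⟨-, h2, h3⟩ := hpt j
      have h4 : (GG D p B ν).eval (x j) = x j * (aeval (x j) D) ^ p +
          (x j ^ B * aeval (x j) D + 1) ^ p +
          (aeval (x j) D) ^ p * ∑ a : Fin m, ν a * (x j ^ p) ^ (a : ℕ) := by
        unfold GG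
        simp only [eval_add, eval_mul, eval_X, eval_pow, eval_map_algebraMap, eval_one,
          eval_finsetSum, eval_C, pow_mul]
      rw [h4] at h3
      have h5 : ∑ a : Fin m, ν a * (x j ^ p) ^ (a : ℕ) =
          (algebraMap K₀ N s * (aeval (x j) D * θ j) ^ p -
          (x j * (aeval (x j) D) ^ p + (x j ^ B * aeval (x j) D + 1) ^ p)) /
          (aeval (x j) D) ^ p := by
        rw [eq_div_iff (pow_ne_zero p h2), ← h3]
        ring
      rw [h5]
      have hD' := hpolyL D j
      refine div_mem (sub_mem (mul_mem hsL (pow_mem (mul_mem hD' (hθL j)) p)) (add_mem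
        (mul_mem (hxL j) (pow_mem hD' p))
        (pow_mem (add_mem (mul_mem (pow_mem (hxL j) B) hD') (one_mem _)) p))) (pow_mem hD' p)
  -- `N` is algebraic over `F₁`
  let M : IntermediateField K₀ N := IntermediateField.adjoin K₀ (Set.range ν)
  have hMN : Algebra.IsAlgebraic M N := hb.isAlgebraic_field
  have hML : M ≤ L.restrictScalars K₀ := by
    refine IntermediateField.adjoin_le_iff.2 ?_
    rintro _ ⟨a, rfl⟩
    exact hνL a
  have hML' : ∀ z : M, (algebraMap M N) z ∈ L := fun z => hML z.2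
  have hN : Algebra.IsAlgebraic F₁ N := by
    let _ : Algebra M L := ((algebraMap M N).codRestrict L hML').toAlgebra
    have : IsScalarTower M L N := IsScalarTower.of_algebraMap_eq fun _ => rfl
    have hLF : Algebra.IsAlgebraic F₁ L := algebraicClosure.isAlgebraic F₁ N
    refine ⟨fun z => ?_⟩
    have h1 : IsAlgebraic M z := hMN.isAlgebraic z
    have h2 : IsAlgebraic L z := h1.tower_top L
    exact h2.restrictScalars F₁
  have hN' : Algebra.IsAlgebraic (Algebra.adjoin K₀ (Set.range x)) N :=
    IntermediateField.isAlgebraic_adjoin_iff_top.1 hN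
  have hcard : Cardinal.mk (Fin m) ≤ Algebra.trdeg K₀ N := by
    rw [← hb.cardinalMk_eq_trdeg]
  exact (Algebra.IsAlgebraic.isTranscendenceBasis_of_le_trdeg_of_finite K₀ x hcard).1

end Pool.Agent.Y686.AW2
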